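import Mathlib
import Pool.Agent.H814.LR.FinT

set_option autoImplicit false

/-!
# Long runs of integers without simultaneous primes in `k` linear forms

Let `L_i(n) = a_i n + b_i`, `i = 1, …, k`, be linear forms, no two of them proportional; for instance `n` and
`n` and `n + 2` (twin primes), `n` and `2 n + 1`, or an arbitrary admissible `k`-tuple.
We show that every interval `(M, M + N]`, `M ≥ N`, contains a run of `κ (log N) (log log N) ^ k` consecutive integers
`n` for which the `k` numbers `L_i(n)` are not all primes: for each of these `n` one of them has a prime factor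
`p ≤ N ^ (1/10)`.  The gaps between consecutive primes that are known are of smaller order, already for `k = 2`.

Method.  For the primes `p` up to `(log N) / 10` classes are chosen greedily; such a prime removes the proportion
`k / p` of the remaining shifts, so at most a small multiple of `log N` of the shifts survive.  For the survivors `h`
the number `L_1(n + h)` is given a prime factor between `(log N) ^ 2` and `N ^ (1/10)`, for all of them at once, by
the covering theorem of the starting library (`Pool.Agent.Y837.SV.mcov`; helper256, helper378, helper837).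
-/

namespace Pool.Agent.Results.MP_028722_nt.LongRunsWithoutTuples

/-- Let `k ≥ 1` and let `a_i n + b_i` be `k` linear forms with integer coefficients, `a_i ≠ 0`, no two of them
proportional. There are `κ > 0` and `N₀` such that for all `N ≥ N₀` and `M ≥ N` there is `m` with `M < m ≤ M + N`
such that for every integer `n` with `m < n ≤ m + κ log N (log log N) ^ k` one of the numbers `a_i n + b_i` is not
(plus or minus) a prime; it has a prime factor `p ≤ N ^ (1/10)`. -/
theorem result (k : ℕ) (hk : 1 ≤ k) (a b : Fin k → ℤ) (ha : ∀ i, a i ≠ 0)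
    (hab : ∀ i j, i ≠ j → a i * b j ≠ a j * b i) : ∃ κ : ℝ, 0 < κ ∧ ∃ N₀ : ℕ,
    ∀ N : ℕ, N₀ ≤ N → ∀ M : ℕ, N ≤ M → ∃ m : ℕ, M < m ∧ m ≤ M + N ∧ ∀ n : ℕ, m < n →
      (n : ℝ) ≤ m + κ * Real.log N * Real.log (Real.log N) ^ k →
      ∃ i, ¬ Prime (a i * (n : ℤ) + b i) ∧
        ∃ p : ℕ, p.Prime ∧ (p : ℝ) ≤ (N : ℝ) ^ (1 / 10 : ℝ) ∧ (p : ℤ) ∣ a i * (n : ℤ) + b i := by
  obtain ⟨s, rfl⟩ : ∃ s, k = s + 1 := ⟨k - 1, by omega⟩
  exact Pool.Agent.H814.LR.tuples_nat a b ha hab

end Pool.Agent.Results.MP_028722_nt.LongRunsWithoutTuples
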