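import Mathlib
import Pool.Agent.helper391_NV.Niven

set_option autoImplicit false

/-!
# Prime gaps of record length around Niven numbers in all short intervals

Let `f(x) = log x (log₂ x)² log₄ x / (log₃ x)²` (iterated natural logarithms), the size of the largest gaps
between consecutive primes that are known to occur up to `x`, and let `s(n)` be the sum of the digits of `n`
in base `b`. A Niven (or Harshad) number is an integer `n` divisible by `s(n)`. We show that there are such
integers in the middle of gaps between primes of record size in every interval `(M, M + M^ε]`, and more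
generally integers divisible by `s(n)^h`, with any fixed `h`.

Proof. Write `M < A b^r` with `b^r` about `M^(ε/2)`, and choose `s` with `s(A) + r/4 < s ≤ s(A) + r/2 + 1`
of the form `(b - 1) 2^e c` with a bounded `c`, so that `s` has only bounded prime factors. By the theorem
behind `MP_69be96_nt.ExactDigitSums`, in a form which is uniform in the modulus `m = s^h ≤ C r^h` with bounded
prime factors, some `n` in `[A b^r, (A + 1) b^r)` has `s(n) = s` exactly, `m ∣ n` and no prime within
`κ f(b^r)`: among the `k` digits of the multiples `j (b^k - 1)`, `1 ≤ j ≤ b^k`, complementary digits give a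
constant sum of digits, and for a prime `k` the modulus `m (b^k - 1)` does not disturb the record sieve. The
sieve comes from the starting file `MP_3bc45c_nt.RecordGapsAtPrescribedPlaces`.
-/

namespace Pool.Agent.Results.MP_028722_nt.NivenNumbersInRecordGaps

/-- The record scale `f(x) = log x (log₂ x)² log₄ x / (log₃ x)²` (iterated natural logarithms). -/
noncomputable def f (x : ℝ) : ℝ :=
  Real.log x * (Real.log (Real.log x)) ^ 2 * Real.log (Real.log (Real.log (Real.log x))) /
    (Real.log (Real.log (Real.log x))) ^ 2

/-- The sum of the digits of `n` in base `b`. -/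
def digitSum (b n : ℕ) : ℕ := (Nat.digits b n).sum

/-- For `b ≥ 2`, `h ≥ 0` and `ε > 0` there are `κ > 0` and `M₀` such that for all `M ≥ M₀` there is an integer
`n` with `M < n ≤ M + M^ε`, `s(n)^h ∣ n` and `|p - n| > κ f(M)` for every prime `p`. -/
theorem result (b h : ℕ) (hb : 2 ≤ b) (ε : ℝ) (hε : 0 < ε) :
    ∃ κ : ℝ, 0 < κ ∧ ∃ M₀ : ℕ, ∀ M : ℕ, M₀ ≤ M → ∃ n : ℕ, M < n ∧ (n : ℝ) ≤ M + (M : ℝ) ^ ε ∧
      digitSum b n ^ h ∣ n ∧ ∀ p : ℕ, p.Prime → κ * f M < |(p : ℝ) - n| :=
  Pool.Agent.helper391_NV.niven b h hb ε hε

end Pool.Agent.Results.MP_028722_nt.NivenNumbersInRecordGaps
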