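import Mathlib
import Pool.Agent.helper825_CS.Ord

set_option autoImplicit false

/-!
# Record prime gaps around primitive roots, and around the elements of any given order, modulo a prime

Let `f(x) = log x (log₂ x)² log₄ x / (log₃ x)²` (iterated natural logarithms), the size of the largest gaps
between consecutive primes produced by the starting files. For every large prime `q`, every divisor `d` of `q - 1` and
every interval of length at least `((q - 1) / d) q^(1/2 + ε)` there is an integer `n` in the interval which has order
EXACTLY `d` modulo `q` and such that every integer within `κ f(q)` of `n` has a prime factor `≤ q^ε`. In particular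
(`d = q - 1`) every interval of length `q^(1/2 + ε)` contains a primitive root modulo `q` in the middle of a prime gap
of record size.

Method. By inclusion and exclusion over the primes dividing `d` and the bound `√q` for Gauss periods, the set of the
elements of order `d` has Fourier coefficients at most `2^ω(d) √q`; with `φ(d)` elements its intersection with the
interval is equidistributed modulo all integers up to `q^ε`, which is all that the covering sieve of the starting files
needs (`helper825_SB.gen0S`, `helper825_CS.core`).
-/

namespace Pool.Agent.Results.MP_028722_nt.PrimitiveRootsInRecordGaps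

/-- The record scale `f(x) = log x (log₂ x)² log₄ x / (log₃ x)²` (iterated natural logarithms). -/
noncomputable def f (x : ℝ) : ℝ :=
  Real.log x * (Real.log (Real.log x)) ^ 2 * Real.log (Real.log (Real.log (Real.log x))) /
    (Real.log (Real.log (Real.log x))) ^ 2

/-- For every `ε > 0` there are `κ > 0` and `q₀` such that for all primes `q ≥ q₀`, all `d, k` with `d k = q - 1` and
all `N, L` with `L ≥ k q^(1/2 + ε)` there is an integer `n` with `N < n ≤ N + L`, of order exactly `d` modulo `q`,
such that no natural number `m` at distance at most `κ f(q)` from `n` is a prime; each such `m` has a prime factor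
`≤ q^ε`. For `k = 1`: `n` is a primitive root modulo `q`. -/
theorem result (ε : ℝ) (hε : 0 < ε) : ∃ κ : ℝ, 0 < κ ∧ ∃ q₀ : ℕ, ∀ q : ℕ, q₀ ≤ q → q.Prime →
    ∀ d k : ℕ, d * k = q - 1 → ∀ N L : ℕ, (k : ℝ) * (q : ℝ) ^ (1 / 2 + ε) ≤ L →
    ∃ n : ℕ, N < n ∧ n ≤ N + L ∧ orderOf (n : ZMod q) = d ∧
      ∀ m : ℕ, |(m : ℝ) - n| ≤ κ * f q →
        ¬ m.Prime ∧ ∃ p : ℕ, p.Prime ∧ (p : ℝ) ≤ (q : ℝ) ^ ε ∧ p ∣ m :=
  Pool.Agent.helper825_CS.order_gaps ε hε

end Pool.Agent.Results.MP_028722_nt.PrimitiveRootsInRecordGaps
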