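import Pool.Agent.H602SS.Final

set_option autoImplicit false

/-!
# Record prime gaps around popular sums of three arbitrary dense sets of primes or of integers

Let `f(x) = log x (log₂ x)² log₄ x / (log₃ x)²`, the size of the largest gaps between consecutive primes that
are known to occur (starting files, `MP_3bc45c_nt.RecordGaps`).

A finite set of integers is *dense at the scale `N`* if it is a set of at least `δ N` elements of an interval of
`N` integers, or a set of at least `δ N / log N` numbers `x + p`, or `x - p`, with `p ≤ N` prime (`x` fixed);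
nothing else is assumed of it. For any three sets `A`, `B`, `C` which are dense at the scale `N` there are at
least `N^(1-ε)` integers `n` such that

* `n` has `≫ |A| |B| |C| / N` representations `n = a + b + c` (the expected number up to a constant), and
* all the integers at distance at most `κ f(N)` from `n` are composite, with a prime factor at most `N^ε`.

The constants depend on `δ` and `ε` only. For instance every set of primes of positive relative upper density
contains, for infinitely many `N`, primes `p₁, p₂, p₃ ≤ N` such that there is no prime at distance at most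
`κ f(N)` from `p₁ + p₂ + p₃` (theorem `sums_of_three_primes`), and likewise for `p₁ + p₂ - p₃`.

Method. The record windows are found in a residue class `b` modulo the product `P` of the primes `p ≤ c log N`,
moved by a multiple of `P` which makes the integers that are left divisible by larger primes. A popular sum of
three dense sets need not occur in the class `b` modulo `P` (the sets may avoid classes modulo small primes), but
by a restriction theorem for the primes (the spaces `L^(5/2)`) the circle method has only boundedly many major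
frequencies: hence there is a set `S` of at most `K(δ)` primes, which depends on the sets, such that in every
residue class modulo the product of the primes `p ≤ c log N`, `p ∉ S`, there are sums with the expected number of
representations, and this number is almost unchanged under the translations by the multiples of `P d`, where `d`
is a common approximate period of the major frequencies. The sieve of the records still works after at most `K`
primes are left out, and the translation is found with the covering theorem of the starting files.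
-/

open Finset

namespace Pool.Agent.Results.MP_028722_nt.SumsOfThreeDenseSets

/-- The record scale `f(x) = log x (log₂ x)² log₄ x / (log₃ x)²` (iterated natural logarithms). -/
noncomputable def f (x : ℝ) : ℝ :=
  Real.log x * (Real.log (Real.log x)) ^ 2 * Real.log (Real.log (Real.log (Real.log x))) /
    (Real.log (Real.log (Real.log x))) ^ 2

/-- `A` is dense at the scale `N`: either `A` is a set of at least `δ N` elements of an interval of `N`
integers, or `A` is a set of at least `δ N / log N` integers of the form `x + p`, or of the form `x - p`, with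
`p ≤ N` prime and `x` fixed. -/
def Dense (δ : ℝ) (N : ℕ) (A : Finset ℤ) : Prop :=
  (∃ x : ℤ, A ⊆ Ioc x (x + N) ∧ δ * N ≤ A.card) ∨
  ∃ x s : ℤ, (s = 1 ∨ s = -1) ∧ (∀ a ∈ A, ∃ p : ℕ, p.Prime ∧ p ≤ N ∧ a = x + s * p) ∧
    δ * (N / Real.log N) ≤ A.card

/-- The number of representations `n = a + b + c`, `a ∈ A`, `b ∈ B`, `c ∈ C`. -/
def reps (A B C : Finset ℤ) (n : ℤ) : ℕ :=
  ((A ×ˢ (B ×ˢ C)).filter (fun t => t.1 + t.2.1 + t.2.2 = n)).card

/-- For all `δ, ε > 0` there are `κ, c > 0` and `N₀` such that for all `N ≥ N₀` and any three sets `A`, `B`, `C`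
which are dense at the scale `N` there are at least `N ^ (1 - ε)` integers `n` with at least
`c |A| |B| |C| / N` representations `n = a + b + c`, such that every integer `m` with
`|m - n| ≤ κ f(N)` is composite: it has a prime factor `p < |m|`, and one with `p ≤ N ^ ε`. -/
theorem result (δ ε : ℝ) (hδ : 0 < δ) (hε : 0 < ε) : ∃ κ : ℝ, 0 < κ ∧ ∃ c : ℝ, 0 < c ∧
    ∃ N₀ : ℕ, ∀ N : ℕ, N₀ ≤ N → ∀ A B C : Finset ℤ, Dense δ N A → Dense δ N B → Dense δ N C →
    ∃ 𝒮 : Finset ℤ, (N : ℝ) ^ (1 - ε) ≤ 𝒮.card ∧ ∀ n ∈ 𝒮,
      c * (A.card * B.card * C.card / N) ≤ reps A B C n ∧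
      ∀ m : ℤ, |(m : ℝ) - n| ≤ κ * f N →
        ∃ p : ℕ, p.Prime ∧ (p : ℝ) ≤ (N : ℝ) ^ ε ∧ (p : ℤ) ∣ m ∧ (p : ℤ) < |m| :=
  Pool.Agent.H602SS.final δ ε hδ hε

/-- A consequence: if `W` is a set of primes of positive relative upper density, then there is `κ > 0` such that
for infinitely many `N` there are `p₁, p₂, p₃ ≤ N` in `W` with no prime at distance at most `κ f(N)` from
`p₁ + p₂ + p₃`. -/
theorem sums_of_three_primes (W : Set ℕ) (hW : ∀ p ∈ W, p.Prime) (δ : ℝ) (hδ : 0 < δ)
    (hd : ∃ᶠ N : ℕ in Filter.atTop, δ * (N / Real.log N) ≤ ((W ∩ Set.Icc 1 N).ncard : ℝ)) :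
    ∃ κ : ℝ, 0 < κ ∧ ∃ᶠ N : ℕ in Filter.atTop, ∃ p₁ ∈ W, ∃ p₂ ∈ W, ∃ p₃ ∈ W,
      p₁ ≤ N ∧ p₂ ≤ N ∧ p₃ ≤ N ∧ ∀ q : ℕ, q.Prime → κ * f N < |(q : ℝ) - (p₁ + p₂ + p₃)| := by
  classical
  obtain ⟨κ, hκ, c, hc, N₀, h⟩ := result δ 1 hδ one_pos
  refine ⟨κ, hκ, ?_⟩
  refine (hd.and_eventually (Filter.eventually_ge_atTop (max N₀ 3))).mono ?_
  rintro N ⟨hN, hN0⟩
  have hN3 : 3 ≤ N := (le_max_right _ _).trans hN0
  obtain ⟨A, hA⟩ : ∃ A : Finset ℤ, A = ((Icc 1 N).filter (fun p => p ∈ W)).image
      (fun p : ℕ => (p : ℤ)) := ⟨_, rfl⟩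
  have hmem : ∀ a ∈ A, ∃ p : ℕ, p ∈ W ∧ p ≤ N ∧ a = p := by
    intro a ha
    rw [hA, mem_image] at ha
    obtain ⟨p, hp, rfl⟩ := ha
    rw [mem_filter, mem_Icc] at hp
    exact ⟨p, hp.2, hp.1.2, rfl⟩
  have hcard : A.card = (W ∩ Set.Icc 1 N).ncard := by
    rw [hA, card_image_of_injective _ Nat.cast_injective, ← Set.ncard_coe_finset]
    congr 1
    ext p
    simp only [coe_filter, mem_Icc, Set.mem_ofPred_eq, Set.mem_inter_iff, Set.mem_Icc]
    tauto
  have hlog : 0 < Real.log N := Real.log_pos (by exact_mod_cast (by omega : 1 < N))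
  have hN0' : (0 : ℝ) < N := by exact_mod_cast (by omega : 0 < N)
  have hApos : (0 : ℝ) < A.card := by
    rw [hcard]
    exact lt_of_lt_of_le (by positivity) hN
  have hAd : Dense δ N A := by
    refine Or.inr ⟨0, 1, Or.inl rfl, fun a ha => ?_, by rw [hcard]; exact hN⟩
    obtain ⟨p, hp, hpN, rfl⟩ := hmem a ha
    exact ⟨p, hW p hp, hpN, by ring⟩
  obtain ⟨S, hS1, hS⟩ := h N ((le_max_left _ _).trans hN0) A A A hAd hAd hAd
  have hSne : S.Nonempty := by
    rw [← card_pos]
    have : (0 : ℝ) < S.card := lt_of_lt_of_le (by positivity) hS1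
    exact_mod_cast this
  obtain ⟨n, hn⟩ := hSne
  obtain ⟨h1, h2⟩ := hS n hn
  have h3 : (0 : ℝ) < reps A A A n := lt_of_lt_of_le (by positivity) h1
  have h4 : 0 < reps A A A n := by exact_mod_cast h3
  obtain ⟨t, ht⟩ := card_pos.1 h4
  rw [mem_filter, mem_product, mem_product] at ht
  obtain ⟨⟨ha, hb, hc'⟩, ht⟩ := ht
  obtain ⟨p₁, w1, l1, e1⟩ := hmem _ ha
  obtain ⟨p₂, w2, l2, e2⟩ := hmem _ hb
  obtain ⟨p₃, w3, l3, e3⟩ := hmem _ hc'
  refine ⟨p₁, w1, p₂, w2, p₃, w3, l1, l2, l3, ?_⟩
  intro q hq
  by_contra hcon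
  rw [not_lt] at hcon
  have h5 : (n : ℝ) = p₁ + p₂ + p₃ := by
    rw [← ht, e1, e2, e3]
    push_cast
    ring
  rw [← h5] at hcon
  obtain ⟨p, hp, -, hpd, hplt⟩ := h2 (q : ℤ) (by push_cast; exact hcon)
  have h6 : p ∣ q := by exact_mod_cast hpd
  have h7 := (Nat.prime_dvd_prime_iff_eq hp hq).1 h6
  rw [h7, Nat.abs_cast] at hplt
  exact lt_irrefl _ hplt

end Pool.Agent.Results.MP_028722_nt.SumsOfThreeDenseSets
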